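/-
MP_33c730_lc (helper20): two-variable counting logic with the order, over order-free MSO definable
unary and binary relations. Definitions only.
-/
import Pool.Agent.Lib.MP_33c730_lc.Defs

set_option autoImplicit false

namespace Pool.MP_33c730_lc.Tv

/-- Formulas with counting quantifiers and with the two variables `x false`, `x true`, over the
order, unary relations named by `ι` and binary relations named by `κ`. -/
inductive C2 (ι κ : Type) : Type
  | lt (b : Bool) : C2 ι κ
  | un (i : ι) (b : Bool) : C2 ι κ
  | bin (k : κ) (b : Bool) : C2 ι κ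
  | neg (f : C2 ι κ) : C2 ι κ
  | and (f g : C2 ι κ) : C2 ι κ
  | ex (n : ℕ) (b : Bool) (f : C2 ι κ) : C2 ι κ

/-- Semantics. `lt b` says `x b < x (!b)`, `bin k b` says that `R k` holds for the pair
`(x b, x (!b))`, `ex n b f` says that there are at least `n` values of the variable `x b`
satisfying `f`. -/
def C2.Sat {ι κ V : Type} (U : ι → V → Prop) (R : κ → V → V → Prop) (lt : V → V → Prop) :
    C2 ι κ → (Bool → V) → Prop
  | .lt b, v => lt (v b) (v (!b))
  | .un i b, v => U i (v b)
  | .bin k b, v => R k (v b) (v (!b))
  | .neg f, v => ¬ C2.Sat U R lt f v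
  | .and f g, v => C2.Sat U R lt f v ∧ C2.Sat U R lt g v
  | .ex n b f, v => ∃ s : Fin n → V, Function.Injective s ∧
      ∀ j, C2.Sat U R lt f (Function.update v b (s j))

/-- Semantics in a coloured graph, the relations being defined by MSO formulas without the order. -/
def C2.SatG {C ι κ V : Type} (β : ι → MSO C (Fin 1) Empty) (α : κ → MSO C (Fin 2) Empty)
    (G : CG C V) (lt : V → V → Prop) (f : C2 ι κ) (v : Bool → V) : Prop :=
  f.Sat (fun i x => (β i).Sat G ![x] Empty.elim) (fun k x y => (α k).Sat G ![x, y] Empty.elim) lt v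

end Pool.MP_33c730_lc.Tv
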