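import Pool.Agent.Lib.MP_33c730_lc.Tv.Types

set_option autoImplicit false

namespace Pool.MP_33c730_lc.Tv

/-! ### Det: the types determine the truth values -/

/-- quantifier rank -/
def C2.rank {ι κ : Type} : C2 ι κ → ℕ
  | .lt _ => 0
  | .un _ _ => 0
  | .bin _ _ => 0
  | .neg f => f.rank
  | .and f g => max f.rank g.rank
  | .ex _ _ f => f.rank + 1

/-- the largest number in a counting quantifier -/
def C2.thr {ι κ : Type} : C2 ι κ → ℕ
  | .lt _ => 0
  | .un _ _ => 0
  | .bin _ _ => 0
  | .neg f => f.thr
  | .and f g => max f.thr g.thr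
  | .ex n _ f => max n f.thr

theorem inj_iff {V : Type} [Finite V] (P : V → Prop) (n : ℕ) :
    (∃ s : Fin n → V, Function.Injective s ∧ ∀ j, P (s j)) ↔ n ≤ {x | P x}.ncard := by
  constructor
  · rintro ⟨f, hf, hf'⟩
    have h1 : (Set.range f).ncard = n := by
      rw [← Set.image_univ, Set.ncard_image_of_injective _ hf, Set.ncard_univ, Nat.card_fin]
    rw [← h1]
    refine Set.ncard_le_ncard ?_ (Set.toFinite _)
    rintro _ ⟨i, rfl⟩
    exact hf' i
  · intro h
    obtain ⟨s, hs, hc⟩ := Set.exists_subset_card_eq h
    have hc' : Nat.card s = n := by rw [← hc]; rfl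
    let e := (Finite.equivFinOfCardEq hc').symm
    exact ⟨fun i => (e i : V), fun a b hab => e.injective (Subtype.ext hab),
      fun i => hs (e i).2⟩

theorem count_fibers {V V' K : Type} [Finite V] [Finite V'] [Finite K] (κ1 : V → K)
    (κ2 : V' → K) (P : V → Prop) (P' : V' → Prop) (N n : ℕ) (hn : n ≤ N)
    (h1 : ∀ x x', κ1 x = κ2 x' → (P x ↔ P' x'))
    (h2 : ∀ k, min N {x | κ1 x = k}.ncard = min N {x | κ2 x = k}.ncard)
    (h : n ≤ {x | P x}.ncard) : n ≤ {x | P' x}.ncard := by
  classical
  have := Fintype.ofFinite V
  have := Fintype.ofFinite V'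
  have := Fintype.ofFinite K
  rcases Nat.eq_zero_or_pos n with h0 | h0
  · omega
  by_cases hex : ∃ x, P x ∧ N ≤ {y | κ1 y = κ1 x}.ncard
  · obtain ⟨x, hx, hN⟩ := hex
    have h3 := h2 (κ1 x)
    have h4 : N ≤ {y | κ2 y = κ1 x}.ncard := by omega
    refine hn.trans (h4.trans (Set.ncard_le_ncard ?_ (Set.toFinite _)))
    intro y hy
    have hy' : κ2 y = κ1 x := hy
    exact (h1 x y hy'.symm).1 hx
  · push Not at hex
    refine h.trans ?_
    have e1 : {x | P x}.ncard = (Finset.univ.filter fun x => P x).card := by
      rw [Set.ncard_eq_toFinset_card']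
      congr 1
      ext x
      simp
    have e2 : {x | P' x}.ncard = (Finset.univ.filter fun x => P' x).card := by
      rw [Set.ncard_eq_toFinset_card']
      congr 1
      ext x
      simp
    rw [e1, e2, Finset.card_eq_sum_card_fiberwise (f := κ1) (t := Finset.univ)
      (fun _ _ => Finset.mem_coe.2 (Finset.mem_univ _)),
      Finset.card_eq_sum_card_fiberwise (f := κ2) (t := Finset.univ)
      (fun _ _ => Finset.mem_coe.2 (Finset.mem_univ _))]
    refine Finset.sum_le_sum fun k _ => ?_
    by_cases hk : ∃ x, P x ∧ κ1 x = k
    · obtain ⟨x, hx, rfl⟩ := hk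
      have h3 := h2 (κ1 x)
      have h4 := hex x hx
      have h5 : {y | κ1 y = κ1 x}.ncard = {y | κ2 y = κ1 x}.ncard := by omega
      have h6 : ((Finset.univ.filter fun x => P x).filter fun y => κ1 y = κ1 x).card ≤
          {y | κ1 y = κ1 x}.ncard := by
        rw [← Set.ncard_coe_finset]
        refine Set.ncard_le_ncard ?_ (Set.toFinite _)
        intro y hy
        simp at hy
        exact hy.2
      have h7 : {y | κ2 y = κ1 x}.ncard ≤
          ((Finset.univ.filter fun x => P' x).filter fun y => κ2 y = κ1 x).card := by
        rw [← Set.ncard_coe_finset]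
        refine Set.ncard_le_ncard ?_ (Set.toFinite _)
        intro y hy
        have hy' : κ2 y = κ1 x := hy
        simp only [Finset.coe_filter, Finset.mem_filter, Finset.mem_univ, true_and,
          Set.mem_setOf_eq]
        exact ⟨(h1 x y hy'.symm).1 hx, hy'⟩
      omega
    · have h3 : ((Finset.univ.filter fun x => P x).filter fun y => κ1 y = k) = ∅ := by
        ext y
        simp only [Finset.mem_filter, Finset.mem_univ, true_and, Finset.notMem_empty, iff_false]
        exact fun hy => hk ⟨y, hy⟩
      rw [h3]
      simp

section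
variable {ι κ : Type}

/-- the class of `x` relative to `y` -/
noncomputable def kcl {V : Type} (N : ℕ) (U : ι → V → Prop) (R : κ → V → V → Prop)
    (lt : V → V → Prop) (r : ℕ) (y x : V) : Option (CT ι κ N r × ET κ × Bool) :=
  open Classical in
  if x = y then none else some (ty N U R lt r x, ed R y x, decide (lt x y))

theorem kcl_none {V : Type} (N : ℕ) (U : ι → V → Prop) (R : κ → V → V → Prop)
    (lt : V → V → Prop) (r : ℕ) (y x : V) : kcl N U R lt r y x = none ↔ x = y := by
  unfold kcl
  split_ifs with h <;> simp [h]

theorem kcl_some {V : Type} (N : ℕ) (U : ι → V → Prop) (R : κ → V → V → Prop)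
    (lt : V → V → Prop) (hlt : IsStrictTotalOrder V lt) (r : ℕ) (y x : V)
    (p : CT ι κ N r × ET κ × Bool) : kcl N U R lt r y x = some p ↔
      (ty N U R lt r x = p.1 ∧ ed R y x = p.2.1 ∧ dir lt p.2.2 x y) := by
  classical
  obtain ⟨t, ε, d⟩ := p
  unfold kcl dir
  by_cases h : x = y
  · subst h
    have := hlt.irrefl x
    cases d <;> simp [this]
  · rw [if_neg h]
    simp only [Option.some.injEq, Prod.mk.injEq]
    refine and_congr Iff.rfl (and_congr Iff.rfl ?_)
    cases d
    · simp only [decide_eq_false_iff_not, Bool.false_eq_true, if_false]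
      constructor
      · intro h1
        by_contra h2
        exact h (hlt.trichotomous _ _ h1 h2)
      · intro h1 h2
        exact hlt.irrefl _ (hlt.trans _ _ _ h1 h2)
    · simp

theorem det (N : ℕ) (f : C2 ι κ) [Finite ι] [Finite κ] : ∀ r, f.rank ≤ r → f.thr ≤ N →
    ∀ (V : Type) [Finite V] (U : ι → V → Prop) (R : κ → V → V → Prop) (lt : V → V → Prop)
      (v : Bool → V) (V' : Type) [Finite V'] (U' : ι → V' → Prop) (R' : κ → V' → V' → Prop)
      (lt' : V' → V' → Prop) (v' : Bool → V'), IsStrictTotalOrder V lt →
      IsStrictTotalOrder V' lt' → (∀ b, ty N U R lt r (v b) = ty N U' R' lt' r (v' b)) →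
      ed R (v false) (v true) = ed R' (v' false) (v' true) →
      (∀ b, lt (v b) (v (!b)) ↔ lt' (v' b) (v' (!b))) →
      (f.Sat U R lt v ↔ f.Sat U' R' lt' v') := by
  have ty0 : ∀ (V : Type) (U : ι → V → Prop) (R : κ → V → V → Prop) (lt : V → V → Prop)
      (V' : Type) (U' : ι → V' → Prop) (R' : κ → V' → V' → Prop) (lt' : V' → V' → Prop)
      (r : ℕ) (x : V) (x' : V'), ty N U R lt r x = ty N U' R' lt' r x' →
      ty N U R lt 0 x = ty N U' R' lt' 0 x' := by
    intro V U R lt V' U' R' lt' r
    induction r with
    | zero => intro x x' h; exact h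
    | succ r ih =>
      intro x x' h
      exact ih x x' (congrArg Prod.fst h)
  induction f with
  | lt b =>
    intro r _ _ V _ U R lt v V' _ U' R' lt' v' _ _ _ _ hl
    exact hl b
  | un i b =>
    intro r _ _ V _ U R lt v V' _ U' R' lt' v' _ _ ht _ _
    have h1 := ty0 _ _ _ _ _ _ _ _ _ _ _ (ht b)
    have h2 : (fun i => U i (v b)) = fun i => U' i (v' b) := congrArg Prod.fst h1
    exact iff_of_eq (congrFun h2 i)
  | bin k b =>
    intro r _ _ V _ U R lt v V' _ U' R' lt' v' _ _ _ he _
    cases b
    · exact iff_of_eq (congrArg Prod.fst (congrFun he k))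
    · exact iff_of_eq (congrArg Prod.snd (congrFun he k))
  | neg f ih =>
    intro r hr hN V _ U R lt v V' _ U' R' lt' v' h1 h2 h3 h4 h5
    exact not_congr (ih r hr hN V U R lt v V' U' R' lt' v' h1 h2 h3 h4 h5)
  | and f g ih1 ih2 =>
    intro r hr hN V _ U R lt v V' _ U' R' lt' v' h1 h2 h3 h4 h5
    exact and_congr
      (ih1 r ((le_max_left _ _).trans hr) ((le_max_left _ _).trans hN) V U R lt v V' U' R' lt' v'
        h1 h2 h3 h4 h5)
      (ih2 r ((le_max_right _ _).trans hr) ((le_max_right _ _).trans hN) V U R lt v V' U' R' lt'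
        v' h1 h2 h3 h4 h5)
  | ex n b f ih =>
    -- one direction, to be used twice
    have key : ∀ r, f.rank ≤ r → f.thr ≤ N → n ≤ N →
      ∀ (V : Type) [Finite V] (U : ι → V → Prop) (R : κ → V → V → Prop) (lt : V → V → Prop)
      (v : Bool → V) (V' : Type) [Finite V'] (U' : ι → V' → Prop) (R' : κ → V' → V' → Prop)
      (lt' : V' → V' → Prop) (v' : Bool → V'), IsStrictTotalOrder V lt →
      IsStrictTotalOrder V' lt' →
      ty N U R lt (r + 1) (v (!b)) = ty N U' R' lt' (r + 1) (v' (!b)) →
      (C2.ex n b f).Sat U R lt v → (C2.ex n b f).Sat U' R' lt' v' := by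
      intro r hr hN hn V _ U R lt v V' _ U' R' lt' v' hl hl' ht hs
      have hs' := (inj_iff (fun x => f.Sat U R lt (Function.update v b x)) n).1 hs
      refine (inj_iff (fun x => f.Sat U' R' lt' (Function.update v' b x)) n).2 ?_
      have := finite_CT ι κ N r
      have ht1 : ty N U R lt r (v (!b)) = ty N U' R' lt' r (v' (!b)) := congrArg Prod.fst ht
      refine count_fibers (kcl N U R lt r (v (!b))) (kcl N U' R' lt' r (v' (!b))) _ _ N n hn
        ?_ ?_ hs'
      · intro x x' hk
        have hbn : (!b) ≠ b := by cases b <;> simp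
        -- the data of the pair
        have h1 : ty N U R lt r x = ty N U' R' lt' r x' ∧
            ed R (v (!b)) x = ed R' (v' (!b)) x' ∧
            (lt x (v (!b)) ↔ lt' x' (v' (!b))) ∧ (lt (v (!b)) x ↔ lt' (v' (!b)) x') := by
          cases hc : kcl N U R lt r (v (!b)) x with
          | none =>
            have hx := (kcl_none N U R lt r _ x).1 hc
            rw [hc] at hk
            have hx' := (kcl_none N U' R' lt' r _ x').1 hk.symm
            have h0 := ty0 _ _ _ _ _ _ _ _ _ _ _ ht1
            have h0' : ed R (v (!b)) (v (!b)) = ed R' (v' (!b)) (v' (!b)) :=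
              congrArg Prod.snd h0
            rw [hx, hx']
            exact ⟨ht1, h0', iff_of_false (hl.irrefl _) (hl'.irrefl _),
              iff_of_false (hl.irrefl _) (hl'.irrefl _)⟩
          | some p =>
            rw [hc] at hk
            obtain ⟨a1, a2, a3⟩ := (kcl_some N U R lt hl r _ x p).1 hc
            obtain ⟨b1, b2, b3⟩ := (kcl_some N U' R' lt' hl' r _ x' p).1 hk.symm
            refine ⟨a1.trans b1.symm, a2.trans b2.symm, ?_⟩
            unfold dir at a3 b3
            cases hp : p.2.2
            · rw [hp] at a3 b3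
              simp only [Bool.false_eq_true, if_false] at a3 b3
              exact ⟨iff_of_false (fun h => hl.irrefl _ (hl.trans _ _ _ h a3))
                (fun h => hl'.irrefl _ (hl'.trans _ _ _ h b3)), iff_of_true a3 b3⟩
            · rw [hp] at a3 b3
              simp only [if_true] at a3 b3
              exact ⟨iff_of_true a3 b3, iff_of_false (fun h => hl.irrefl _ (hl.trans _ _ _ h a3))
                (fun h => hl'.irrefl _ (hl'.trans _ _ _ h b3))⟩
        obtain ⟨h2, h3, h4, h5⟩ := h1
        refine ih r hr hN V U R lt (Function.update v b x) V' U' R' lt' (Function.update v' b x')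
          hl hl' ?_ ?_ ?_
        · intro b'
          by_cases hb : b' = b
          · rw [hb, Function.update_self, Function.update_self]
            exact h2
          · have hb' : b' = !b := by cases b <;> cases b' <;> simp_all
            rw [hb', Function.update_of_ne hbn, Function.update_of_ne hbn]
            exact ht1
        · cases b
          · simp only [Bool.not_false] at h3
            rw [Function.update_self, Function.update_self,
              Function.update_of_ne (by simp), Function.update_of_ne (by simp),
              ed_symm R _ x, ed_symm R' _ x']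
            exact congrArg cvE h3
          · simp only [Bool.not_true] at h3
            rw [Function.update_self, Function.update_self,
              Function.update_of_ne (by simp), Function.update_of_ne (by simp)]
            exact h3
        · intro b'
          by_cases hb : b' = b
          · rw [hb, Function.update_self, Function.update_self,
              Function.update_of_ne hbn, Function.update_of_ne hbn]
            exact h4
          · have hb' : b' = !b := by cases b <;> cases b' <;> simp_all
            rw [hb', Bool.not_not, Function.update_self, Function.update_self,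
              Function.update_of_ne hbn, Function.update_of_ne hbn]
            exact h5
      · intro k
        cases k with
        | none =>
          have e1 : {x | kcl N U R lt r (v (!b)) x = none} = {v (!b)} := by
            ext x
            exact kcl_none N U R lt r _ x
          have e2 : {x | kcl N U' R' lt' r (v' (!b)) x = none} = {v' (!b)} := by
            ext x
            exact kcl_none N U' R' lt' r _ x
          rw [e1, e2, Set.ncard_singleton, Set.ncard_singleton]
        | some p =>
          have e1 : {x | kcl N U R lt r (v (!b)) x = some p} =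
              {w | ty N U R lt r w = p.1 ∧ ed R (v (!b)) w = p.2.1 ∧ dir lt p.2.2 w (v (!b))} := by
            ext x
            exact kcl_some N U R lt hl r _ x p
          have e2 : {x | kcl N U' R' lt' r (v' (!b)) x = some p} =
              {w | ty N U' R' lt' r w = p.1 ∧ ed R' (v' (!b)) w = p.2.1 ∧
                dir lt' p.2.2 w (v' (!b))} := by
            ext x
            exact kcl_some N U' R' lt' hl' r _ x p
          rw [e1, e2]
          have h1 := congrFun (congrArg Prod.snd ht) p
          exact congrArg Fin.val h1
    intro r hr hN V _ U R lt v V' _ U' R' lt' v' h1 h2 h3 h4 h5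
    obtain ⟨r, rfl⟩ : ∃ r', r = r' + 1 := ⟨r - 1, by
      have : f.rank + 1 ≤ r := hr
      omega⟩
    have hr' : f.rank + 1 ≤ r + 1 := hr
    have hN1 : f.thr ≤ N := (le_max_right _ _).trans hN
    have hN2 : n ≤ N := (le_max_left _ _).trans hN
    exact ⟨key r (by omega) hN1 hN2 V U R lt v V' U' R' lt' v' h1 h2 (h3 _),
      key r (by omega) hN1 hN2 V' U' R' lt' v' V U R lt v h2 h1 (h3 _).symm⟩
end

end Pool.MP_33c730_lc.Tv
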