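import Pool.Agent.Lib.MP_33c730_lc.Tv.Det
import Pool.Agent.Lib.MP_33c730_lc.Dg.DefPApi
import Pool.Agent.Lib.MP_33c730_lc.Coding

set_option autoImplicit false

namespace Pool.MP_33c730_lc.Tv

/-! ### Mso: the MSO sentence -/

/-- definable on finite graphs -/
abbrev DT (C α β : Type) (R : ∀ {V : Type}, CG C V → (α → V) → (β → Set V) → Prop) : Prop :=
  DefP C α β (fun _ _ => True) R

section
variable {C ι κ α : Type} [Finite ι] [Finite κ] {L : ℕ}

/-- the unary relations -/
def UG (β : ι → MSO C (Fin 1) Empty) {V : Type} (G : CG C V) : ι → V → Prop :=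
  fun i x => (β i).Sat G ![x] Empty.elim

/-- the binary relations -/
def RG (γ : κ → MSO C (Fin 2) Empty) {V : Type} (G : CG C V) : κ → V → V → Prop :=
  fun k x y => (γ k).Sat G ![x, y] Empty.elim

/-- comparison of the intervals coded by sets -/
def bS {V : Type} (S : Fin L → Set V) : V → V → Prop := cb (idx S)

theorem dt_U {β' : Type} (β : ι → MSO C (Fin 1) Empty) (i : ι) (x : α) :
    DT C α β' fun G v _ => UG β G i (v x) := by
  refine DefP.of (Def.congr (Def.rename (R := fun G v S => (β i).Sat G v S)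
    ⟨β i, fun _ _ _ _ => Iff.rfl⟩ (fun _ : Fin 1 => x) (Empty.elim : Empty → β')) ?_)
  intro V G v S
  have h1 : (fun i : Fin 1 => v ((fun _ : Fin 1 => x) i)) = ![v x] := by
    funext i
    fin_cases i
    rfl
  have h2 : (fun X : Empty => S ((Empty.elim : Empty → β') X)) = Empty.elim := by
    funext X
    exact X.elim
  rw [h1, h2]
  exact Iff.rfl

theorem dt_R {β' : Type} (γ : κ → MSO C (Fin 2) Empty) (k : κ) (x y : α) :
    DT C α β' fun G v _ => RG γ G k (v x) (v y) := by
  refine DefP.of (Def.congr (Def.rename (R := fun G v S => (γ k).Sat G v S)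
    ⟨γ k, fun _ _ _ _ => Iff.rfl⟩ ![x, y] (Empty.elim : Empty → β')) ?_)
  intro V G v S
  have h1 : (fun i : Fin 2 => v (![x, y] i)) = ![v x, v y] := by
    funext i
    fin_cases i <;> rfl
  have h2 : (fun X : Empty => S ((Empty.elim : Empty → β') X)) = Empty.elim := by
    funext X
    exact X.elim
  rw [h1, h2]
  exact Iff.rfl

theorem ET_eq {κ : Type} (ε ε' : ET κ) :
    (∀ k, ((ε k).1 ↔ (ε' k).1) ∧ ((ε k).2 ↔ (ε' k).2)) ↔ ε = ε' := by
  constructor
  · intro h
    funext k
    exact Prod.ext (propext (h k).1) (propext (h k).2)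
  · rintro rfl k
    exact ⟨Iff.rfl, Iff.rfl⟩

theorem dt_ed {β' : Type} (γ : κ → MSO C (Fin 2) Empty) (x y x' y' : α) :
    DT C α β' fun G v _ => ed (RG γ G) (v x) (v y) = ed (RG γ G) (v x') (v y') := by
  refine DefP.congr (DefP.allFin fun k => DefP.and (DefP.iff (dt_R γ k x y) (dt_R γ k x' y'))
    (DefP.iff (dt_R γ k y x) (dt_R γ k y' x'))) ?_
  intro V _ G v S _
  exact ET_eq (ed (RG γ G) (v x) (v y)) (ed (RG γ G) (v x') (v y'))

theorem dt_edc {β' : Type} (γ : κ → MSO C (Fin 2) Empty) (x y : α) (ε : ET κ) :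
    DT C α β' fun G v _ => ed (RG γ G) (v x) (v y) = ε := by
  refine DefP.congr (DefP.allFin fun k => DefP.and (DefP.iff (dt_R γ k x y) (DefP.const (ε k).1))
    (DefP.iff (dt_R γ k y x) (DefP.const (ε k).2))) ?_
  intro V _ G v S _
  exact ET_eq (ed (RG γ G) (v x) (v y)) ε

theorem dt_bS (x y : α) : DT C α (Fin L) fun _ v S => bS S (v x) (v y) := by
  refine DefP.of (Def.congr (Def.exFin fun l : Fin L => Def.and (Def.mem x l)
    (Def.allFin fun l' : Fin L => Def.imp (Def.const (l' ≤ l)) (Def.not (Def.mem y l')))) ?_)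
  intro V G v S
  exact (idx_lt _ _ _).symm

theorem dt_dir (d : Bool) (x y : α) : DT C α (Fin L) fun _ v S => dir (bS S) d (v x) (v y) := by
  cases d
  · exact DefP.congr (dt_bS y x) (fun _ _ _ _ => Iff.rfl)
  · exact DefP.congr (dt_bS x y) (fun _ _ _ _ => Iff.rfl)

/-- counting up to a bound -/
theorem dt_count {β' : Type} {P : ∀ {V : Type}, CG C V → (Option α → V) → (β' → Set V) → Prop}
    (n : ℕ) (h : DT C (Option α) β' P) :
    DT C α β' fun {V} G v S => n ≤ {w : V | P G (ext w v) S}.ncard := by
  refine DefP.congr (DefP.exTup (ι := Fin n) (DefP.and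
    (DefP.allFin fun i : Fin n => DefP.allFin fun j : Fin n =>
      DefP.imp (DefP.of (Def.eq (.inr i) (.inr j))) (DefP.const (i = j)))
    (DefP.allFin fun j : Fin n => h.rename (fun o => o.elim (.inr j) .inl)))) ?_
  intro V _ G v S _
  rw [← inj_iff (fun w => P G (ext w v) S) n]
  refine exists_congr fun f => and_congr ?_ (forall_congr' fun j => ?_)
  · exact ⟨fun h i j hij => h i j hij, fun h i j hij => h hij⟩
  · have h1 : (fun i : Option α => (Sum.elim v f : α ⊕ Fin n → V)
        ((fun o : Option α => o.elim (Sum.inr j) Sum.inl) i)) = ext (f j) v := by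
      funext i
      cases i <;> rfl
    exact iff_of_eq (congrArg (fun z => P G z S) h1)

theorem cap_iff (N m : ℕ) (j : Fin (N + 1)) :
    cap N m = j ↔ ∀ l : Fin (N + 1), ((l : ℕ) ≤ m ↔ (l : ℕ) ≤ j) := by
  constructor
  · rintro rfl l
    unfold cap
    have := l.2
    simp only
    omega
  · intro h
    have h1 := (h (cap N m)).1 (by unfold cap; simp)
    have h2 := (h j).2 le_rfl
    apply Fin.ext
    unfold cap at h1 ⊢
    simp only at h1 ⊢
    have := j.2
    omega

theorem dt_ty (N : ℕ) (β : ι → MSO C (Fin 1) Empty) (γ : κ → MSO C (Fin 2) Empty) :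
    ∀ (r : ℕ) {α : Type} (x : α) (t : CT ι κ N r),
      DT C α (Fin L) fun G v S => ty N (UG β G) (RG γ G) (bS S) r (v x) = t := by
  intro r
  induction r with
  | zero =>
    rintro α x ⟨u, ε⟩
    refine DefP.congr (DefP.and (DefP.allFin fun i => DefP.iff (dt_U β i x) (DefP.const (u i)))
      (dt_edc γ x x ε)) ?_
    intro V _ G v S _
    change _ ↔ ((fun i => UG β G i (v x)), ed (RG γ G) (v x) (v x)) = (u, ε)
    rw [Prod.mk.injEq]
    refine and_congr ?_ Iff.rfl
    exact ⟨fun h => funext fun k => propext (h k), fun h k => iff_of_eq (congrFun h k)⟩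
  | succ r ih =>
    rintro α x ⟨t, h⟩
    have := finite_CT ι κ N r
    refine DefP.congr (DefP.and (ih x t) (DefP.allFin fun p : CT ι κ N r × ET κ × Bool =>
      DefP.allFin fun l : Fin (N + 1) => DefP.iff
        (dt_count (l : ℕ) (DefP.and (ih none p.1) (DefP.and (dt_edc γ (some x) none p.2.1)
          (dt_dir p.2.2 none (some x))))) (DefP.const ((l : ℕ) ≤ h p)))) ?_
    intro V _ G v S _
    change _ ↔ (ty N (UG β G) (RG γ G) (bS S) r (v x), fun p =>
      cap N {w | ty N (UG β G) (RG γ G) (bS S) r w = p.1 ∧ ed (RG γ G) (v x) w = p.2.1 ∧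
        dir (bS S) p.2.2 w (v x)}.ncard) = (t, h)
    rw [Prod.mk.injEq, funext_iff]
    refine and_congr Iff.rfl (forall_congr' fun p => ?_)
    rw [cap_iff]
    exact Iff.rfl

theorem dt_tyeq (N : ℕ) (β : ι → MSO C (Fin 1) Empty) (γ : κ → MSO C (Fin 2) Empty)
    (r : ℕ) (x y : α) : DT C α (Fin L) fun G v S =>
      ty N (UG β G) (RG γ G) (bS S) r (v x) = ty N (UG β G) (RG γ G) (bS S) r (v y) := by
  have := finite_CT ι κ N r
  refine DefP.congr (DefP.allFin fun t : CT ι κ N r => DefP.iff (dt_ty N β γ r x t)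
    (dt_ty N β γ r y t)) ?_
  intro V _ G v S _
  constructor
  · intro h
    exact ((h _).1 rfl).symm
  · intro h t
    rw [h]

theorem dt_ok (N : ℕ) (β : ι → MSO C (Fin 1) Empty) (γ : κ → MSO C (Fin 2) Empty) (r : ℕ) :
    DT C α (Fin L) fun G _ S => OKc N (UG β G) (RG γ G) (idx S) r := by
  refine DefP.congr (DefP.allFin fun s : Fin r => DefP.all (DefP.all
    (DefP.imp (DefP.not (DefP.of (Def.eq (some none) none)))
      (DefP.imp (DefP.and (DefP.not (dt_bS (some none) none)) (DefP.not (dt_bS none (some none))))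
        (DefP.allFin fun d : Bool => dt_count N (DefP.and
          (dt_tyeq N β γ s none (some none)) (DefP.and
            (dt_ed γ (some (some none)) none (some (some none)) (some none))
            (dt_dir d none (some (some none)))))))))) ?_
  intro V _ G v S _
  unfold OKc
  constructor
  · intro h s hs x z hne hc d
    refine h ⟨s, hs⟩ x z hne ⟨?_, ?_⟩ d
    · exact (fun h1 : idx S x < idx S z => by omega)
    · exact (fun h1 : idx S z < idx S x => by omega)
  · intro h s x z hne hc d
    refine h s s.2 x z hne ?_ d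
    have h1 := hc.1
    have h2 := hc.2
    unfold bS cb at h1 h2
    change ¬ idx S x < idx S z at h1
    change ¬ idx S z < idx S x at h2
    omega
end

/-- every map to the natural numbers is compatible with a linear order. -/
theorem exists_order {V : Type} [Finite V] (c : V → ℕ) : ∃ r : V → V → Prop,
    IsStrictTotalOrder V r ∧ (∀ x y, c x < c y → r x y) ∧ ∀ x y, r x y → c x ≤ c y := by
  obtain ⟨n, ⟨e⟩⟩ := Finite.exists_equiv_fin V
  refine ⟨fun x y => c x < c y ∨ (c x = c y ∧ e x < e y), ?_, fun x y h => Or.inl h, ?_⟩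
  · exact {
      trichotomous := fun x y h1 h2 => by
        push Not at h1 h2
        have h3 : c x = c y := le_antisymm h2.1 h1.1
        exact e.injective (le_antisymm (h2.2 h3.symm) (h1.2 h3))
      irrefl := fun x h => by
        rcases h with h | h
        · exact lt_irrefl _ h
        · exact lt_irrefl _ h.2
      trans := fun x y z h1 h2 => by
        rcases h1 with h1 | h1 <;> rcases h2 with h2 | h2
        · exact Or.inl (h1.trans h2)
        · exact Or.inl (by rw [← h2.1]; exact h1)
        · exact Or.inl (by rw [h1.1]; exact h2)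
        · exact Or.inr ⟨h1.1.trans h2.1, h1.2.trans h2.2⟩ }
  · rintro x y (h | h)
    · exact h.le
    · exact h.1.le

/-- **Order-invariant two-variable logic with counting is contained in MSO on all graphs.** -/
theorem main_two (C ι κ : Type) [Finite ι] [Finite κ] (β : ι → MSO C (Fin 1) Empty)
    (γ : κ → MSO C (Fin 2) Empty) (f : C2 ι κ)
    (hf : ∀ (V : Type) [Finite V] (G : CG C V) (r r' : V → V → Prop) (v v' : Bool → V),
      IsStrictTotalOrder V r → IsStrictTotalOrder V r' → (f.SatG β γ G r v ↔ f.SatG β γ G r' v')) :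
    ∃ ψ : MSO C Empty Empty, ∀ (V : Type) [Finite V] (G : CG C V) (lt : V → V → Prop)
      (v : Bool → V), IsStrictTotalOrder V lt →
        (ψ.Sat G Empty.elim Empty.elim ↔ f.SatG β γ G lt v) := by
  obtain ⟨L, hL⟩ := exists_c ι κ f.thr f.rank
  have := finite_CT ι κ f.thr f.rank
  -- the types of the elements of the graphs satisfying `f`
  let good : CT ι κ f.thr f.rank → Prop := fun t => ∃ (V : Type) (_ : Finite V) (G : CG C V)
    (r : V → V → Prop) (x : V), IsStrictTotalOrder V r ∧
      ty f.thr (UG β G) (RG γ G) r f.rank x = t ∧ f.SatG β γ G r (fun _ => x)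
  have hgood : ∀ (V : Type) [Finite V] (G : CG C V) (r : V → V → Prop) (x : V),
      IsStrictTotalOrder V r →
      (good (ty f.thr (UG β G) (RG γ G) r f.rank x) ↔ f.SatG β γ G r (fun _ => x)) := by
    intro V _ G r x hr
    constructor
    · rintro ⟨V', _, G', r', x', hr', h1, h2⟩
      refine (det f.thr f f.rank le_rfl le_rfl V' (UG β G') (RG γ G') r' (fun _ => x') V
        (UG β G) (RG γ G) r (fun _ => x) hr' hr (fun _ => h1) ?_ ?_).1 h2
      · have h3 : ∀ (r0 : ℕ) (V : Type) (G : CG C V) (r : V → V → Prop) (x : V) (V' : Type)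
            (G' : CG C V') (r' : V' → V' → Prop) (x' : V'),
            ty f.thr (UG β G') (RG γ G') r' r0 x' = ty f.thr (UG β G) (RG γ G) r r0 x →
            ed (RG γ G') x' x' = ed (RG γ G) x x := by
          intro r0
          induction r0 with
          | zero =>
            intro V G r x V' G' r' x' h
            exact congrArg Prod.snd h
          | succ r0 ih =>
            intro V G r x V' G' r' x' h
            exact ih V G r x V' G' r' x' (congrArg Prod.fst h)
        exact h3 _ _ _ _ _ _ _ _ _ h1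
      · intro b
        exact iff_of_false (hr'.irrefl _) (hr.irrefl _)
    · intro h
      exact ⟨V, inferInstance, G, r, x, hr, rfl, h⟩
  have hdef : DT C Empty (Fin L) fun {V} G v S =>
      OKc f.thr (UG β G) (RG γ G) (idx S) f.rank ∧
        ∃ x : V, good (ty f.thr (UG β G) (RG γ G) (bS S) f.rank x) := by
    refine DefP.and (dt_ok f.thr β γ f.rank) ?_
    refine DefP.congr (DefP.ex (DefP.not (DefP.allFin fun t : CT ι κ f.thr f.rank =>
      DefP.not (DefP.and (DefP.const (good t)) (dt_ty f.thr β γ f.rank none t))))) ?_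
    intro V _ G v S _
    refine exists_congr fun x => ?_
    constructor
    · intro h
      push Not at h
      obtain ⟨t, h1, h2⟩ := h
      have h3 : ty f.thr (UG β G) (RG γ G) (bS S) f.rank x = t := h2
      rw [h3]
      exact h1
    · intro h1 h2
      exact h2 _ ⟨h1, rfl⟩
  obtain ⟨ψ, hψ⟩ := DefP.close (Def.const True) hdef
  refine ⟨ψ, ?_⟩
  intro V _ G lt v hlt
  rw [hψ V G]
  constructor
  · rintro ⟨S, -, hok, x, hx⟩
    obtain ⟨r, hr, h1, h2⟩ := exists_order (idx S)
    have h3 := ty_agree f.thr (UG β G) (RG γ G) (idx S) r h1 h2 hr.irrefl hok f.rank le_rfl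
    have h4 : good (ty f.thr (UG β G) (RG γ G) r f.rank x) := by
      rw [h3]
      exact hx
    exact (hf V G r lt _ v hr hlt).1 ((hgood V G r x hr).1 h4)
  · intro h
    obtain ⟨c, hc, hok⟩ := hL V (UG β G) (RG γ G)
    let S : Fin L → Set V := fun i => {x | c x = (i : ℕ)}
    have hidx : idx S = c := by
      funext x
      exact idx_coding c hc x
    obtain ⟨r, hr, h1, h2⟩ := exists_order c
    have h3 := ty_agree f.thr (UG β G) (RG γ G) c r h1 h2 hr.irrefl hok f.rank le_rfl
    refine ⟨S, trivial, ?_, v false, ?_⟩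
    · rw [hidx]
      exact hok
    · unfold bS
      rw [hidx, ← h3]
      exact (hgood V G r _ hr).2 ((hf V G lt r v _ hlt hr).1 h)

end Pool.MP_33c730_lc.Tv
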