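import Mathlib

set_option autoImplicit false

namespace Pool.MP_33c730_lc.Tv

/-! ### Split: splitting a set into boundedly many intervals with witnesses on both sides -/

/-- the number of elements of `U` before (`d = true`) or after `x` with `e x w = ε` -/
noncomputable def nb {V E : Type} (e : V → V → E) (U : Set V) (s : V → ℕ) (x : V) (ε : E)
    (d : Bool) : ℕ :=
  {w | w ∈ U ∧ e x w = ε ∧ (if d then s w < s x else s x < s w)}.ncard

/-- a greedy set: no element of it is related to an earlier element of it, every other element is
related to an earlier element of it. -/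
theorem exists_greedy {V E : Type} [Finite V] (e : V → V → E) (σ : V → ℤ)
    (hσ : Function.Injective σ) (ε : E) : ∀ (n : ℕ) (U : Set V), U.ncard = n →
    ∃ A ⊆ U, (∀ x ∈ A, ∀ a ∈ A, σ a < σ x → e x a ≠ ε) ∧
      ∀ x ∈ U, x ∉ A → ∃ a ∈ A, e x a = ε := by
  intro n
  induction n with
  | zero =>
    intro U hU
    rw [Set.ncard_eq_zero (Set.toFinite _)] at hU
    subst hU
    exact ⟨∅, le_rfl, by simp, by simp⟩
  | succ n ih =>
    intro U hU
    have hne : U.Nonempty := by
      rw [← Set.ncard_pos (Set.toFinite _)]
      omega
    obtain ⟨x, hx, hmax⟩ := Set.exists_max_image U σ (Set.toFinite _) hne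
    obtain ⟨A, hA, hA1, hA2⟩ := ih (U \ {x}) (by
      rw [Set.ncard_diff_singleton_of_mem hx]
      omega)
    have hxA : x ∉ A := fun h => (hA h).2 rfl
    by_cases hex : ∃ a ∈ A, e x a = ε
    · refine ⟨A, fun a ha => (hA ha).1, hA1, fun y hy hyA => ?_⟩
      by_cases hyx : y = x
      · rw [hyx]
        exact hex
      · exact hA2 y ⟨hy, hyx⟩ hyA
    · push Not at hex
      refine ⟨insert x A, Set.insert_subset hx (fun a ha => (hA ha).1), ?_, ?_⟩
      · rintro y (rfl | hy) a (rfl | ha) hlt
        · exact absurd hlt (lt_irrefl _)
        · exact hex a ha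
        · exact absurd hlt (not_lt.2 (hmax y (hA hy).1))
        · exact hA1 y hy a ha hlt
      · intro y hy hyA
        have h1 : y ∉ A := fun h => hyA (Set.mem_insert_of_mem _ h)
        have h2 : y ≠ x := fun h => hyA (by rw [h]; exact Set.mem_insert _ _)
        obtain ⟨a, ha, h3⟩ := hA2 y ⟨hy, h2⟩ h1
        exact ⟨a, Set.mem_insert_of_mem _ ha, h3⟩

/-- the main splitting lemma -/
theorem split_aux {E : Type} [DecidableEq E] (cv : E → E) (hcv : ∀ ε, cv (cv ε) = ε) :
    ∀ (k m : ℕ) (F Ac : Finset E) (n : E → ℕ),
    2 * F.card = k + (F.filter fun ε => ε ∈ Ac ∨ cv ε ∈ Ac).card → (∑ ε ∈ F, n ε) = m →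
    ∃ L : ℕ, ∀ (V : Type) [Finite V] (e : V → V → E), (∀ x y, x ≠ y → e y x = cv (e x y)) →
      ∀ ρ : V → ℤ, Function.Injective ρ → ∀ U : Set V,
      (∀ x ∈ U, ∀ y ∈ U, x ≠ y → e x y ∈ F) →
      (∀ x ∈ U, ∀ y ∈ U, x ≠ y → e x y ∈ Ac → ρ x < ρ y) →
      ∃ s : V → ℕ, (∀ x, s x < L) ∧ ∀ x ∈ U, ∀ z ∈ U, x ≠ z → s x = s z →
        ∀ d, n (e x z) ≤ nb e U s x (e x z) d := by
  intro k
  induction k using Nat.strong_induction_on with
  | _ k ihk =>
    intro m
    induction m using Nat.strong_induction_on with
    | _ m ihm =>
      intro F Ac n hF hn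
      by_cases hz : ∀ ε ∈ F, n ε = 0
      · refine ⟨1, fun V _ e he ρ hρ U hU hAc => ⟨fun _ => 0, fun _ => Nat.one_pos, ?_⟩⟩
        intro x hx z hz' hne _ d
        rw [hz _ (hU x hx z hz' hne)]
        exact Nat.zero_le _
      · push Not at hz
        obtain ⟨ε, hε, hnε⟩ := hz
        -- the bound for the shells: smaller measure
        have shell : ∃ L1 : ℕ, ∀ (V : Type) [Finite V] (e : V → V → E),
            (∀ x y, x ≠ y → e y x = cv (e x y)) → ∀ ρ : V → ℤ, Function.Injective ρ →
            ∀ U : Set V, (∀ x ∈ U, ∀ y ∈ U, x ≠ y → e x y ∈ F) →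
            (∀ x ∈ U, ∀ y ∈ U, x ≠ y → e x y ∈ Ac → ρ x < ρ y) →
            ∃ A ⊆ U, (∀ x ∈ U, x ∉ A → ∃ a ∈ A, e x a = ε) ∧
              ∃ s : V → ℕ, (∀ x, s x < L1) ∧ ∀ x ∈ A, ∀ z ∈ A, x ≠ z → s x = s z →
                ∀ d, n (e x z) ≤ nb e A s x (e x z) d := by
          by_cases hAc : ε = cv ε ∨ ε ∈ Ac ∨ cv ε ∈ Ac
          · -- the type disappears
            have hcard : ((F.erase ε).erase (cv ε)).card < F.card :=
              lt_of_le_of_lt (Finset.card_le_card (Finset.erase_subset _ _))
                (Finset.card_erase_lt_of_mem hε)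
            have hsub : ((F.erase ε).erase (cv ε)) ⊆ F :=
              (Finset.erase_subset _ _).trans (Finset.erase_subset _ _)
            have hfc : (F.filter fun ε => ε ∈ Ac ∨ cv ε ∈ Ac).card ≤
                (((F.erase ε).erase (cv ε)).filter fun ε => ε ∈ Ac ∨ cv ε ∈ Ac).card +
                  (F.card - ((F.erase ε).erase (cv ε)).card) := by
              have h1 := Finset.card_le_card (show (F.filter fun ε => ε ∈ Ac ∨ cv ε ∈ Ac) ⊆
                (((F.erase ε).erase (cv ε)).filter fun ε => ε ∈ Ac ∨ cv ε ∈ Ac) ∪
                  (F \ ((F.erase ε).erase (cv ε))) from by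
                intro a ha
                rw [Finset.mem_filter] at ha
                by_cases h : a ∈ (F.erase ε).erase (cv ε)
                · exact Finset.mem_union_left _ (Finset.mem_filter.2 ⟨h, ha.2⟩)
                · exact Finset.mem_union_right _ (Finset.mem_sdiff.2 ⟨ha.1, h⟩))
              refine h1.trans ((Finset.card_union_le _ _).trans ?_)
              rw [Finset.card_sdiff_of_subset hsub]
            have hfc2 : (((F.erase ε).erase (cv ε)).filter fun ε => ε ∈ Ac ∨ cv ε ∈ Ac).card ≤
              ((F.erase ε).erase (cv ε)).card := Finset.card_filter_le _ _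
            obtain ⟨L1, hL1⟩ := ihk (2 * ((F.erase ε).erase (cv ε)).card -
              (((F.erase ε).erase (cv ε)).filter fun ε => ε ∈ Ac ∨ cv ε ∈ Ac).card) (by omega) _
              ((F.erase ε).erase (cv ε)) Ac n (by omega) rfl
            refine ⟨L1, fun V _ e he ρ hρ U hU hA => ?_⟩
            -- choose the direction
            obtain ⟨σ, hσ, hfree⟩ : ∃ σ : V → ℤ, Function.Injective σ ∧
                ∀ x ∈ U, ∀ a ∈ U, x ≠ a → ¬ σ a < σ x → e x a = ε →
                  e a x = ε ∨ False := by
              rcases hAc with h1 | h1 | h1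
              · refine ⟨ρ, hρ, fun x hx a ha hne _ h2 => Or.inl ?_⟩
                rw [he x a hne, h2, ← h1]
              · refine ⟨fun v => -ρ v, fun a b h => hρ (neg_injective h), ?_⟩
                intro x hx a ha hne h2 h3
                have h4 := hA x hx a ha hne (by rw [h3]; exact h1)
                exact absurd (show -ρ a < -ρ x by omega) h2
              · refine ⟨ρ, hρ, fun x hx a ha hne h2 h3 => ?_⟩
                have h4 := hA a ha x hx (Ne.symm hne) (by rw [he x a hne, h3]; exact h1)
                exact absurd h4 h2
            obtain ⟨A, hAU, hA1, hA2⟩ := exists_greedy e σ hσ ε _ U rfl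
            have hfreeA : ∀ x ∈ A, ∀ a ∈ A, x ≠ a → e x a ≠ ε := by
              intro x hx a ha hne h1
              by_cases h2 : σ a < σ x
              · exact hA1 x hx a ha h2 h1
              · rcases hfree x (hAU hx) a (hAU ha) hne h2 h1 with h3 | h3
                · have h4 : σ x < σ a := by
                    have := hσ.ne hne
                    omega
                  exact hA1 a ha x hx h4 h3
                · exact h3
            obtain ⟨s, hs, hs'⟩ := hL1 V e he ρ hρ A (by
              intro x hx y hy hne
              refine Finset.mem_erase.2 ⟨?_, Finset.mem_erase.2 ⟨hfreeA x hx y hy hne,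
                hU x (hAU hx) y (hAU hy) hne⟩⟩
              intro h1
              refine hfreeA y hy x hx (Ne.symm hne) ?_
              rw [he x y hne, h1, hcv]) (fun x hx y hy => hA x (hAU hx) y (hAU hy))
            exact ⟨A, hAU, hA2, s, hs, hs'⟩
          · -- the type becomes acyclic
            push Not at hAc
            have hfc : (F.filter fun ε' => ε' ∈ Ac ∨ cv ε' ∈ Ac).card <
                (F.filter fun ε' => ε' ∈ insert ε Ac ∨ cv ε' ∈ insert ε Ac).card := by
              refine Finset.card_lt_card ?_
              refine ⟨?_, ?_⟩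
              · intro a ha
                rw [Finset.mem_filter] at ha ⊢
                refine ⟨ha.1, ?_⟩
                rcases ha.2 with h | h
                · exact Or.inl (Finset.mem_insert_of_mem h)
                · exact Or.inr (Finset.mem_insert_of_mem h)
              · intro h
                have h1 := h (Finset.mem_filter.2 ⟨hε, Or.inl (Finset.mem_insert_self _ _)⟩)
                rw [Finset.mem_filter] at h1
                rcases h1.2 with h2 | h2
                · exact hAc.2.1 h2
                · exact hAc.2.2 h2
            have hfc2 : (F.filter fun ε' => ε' ∈ insert ε Ac ∨ cv ε' ∈ insert ε Ac).card ≤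
              F.card := Finset.card_filter_le _ _
            obtain ⟨L1, hL1⟩ := ihk (2 * F.card -
              (F.filter fun ε' => ε' ∈ insert ε Ac ∨ cv ε' ∈ insert ε Ac).card) (by omega) _
              F (insert ε Ac) n (by omega) rfl
            refine ⟨L1, fun V _ e he ρ hρ U hU hA => ?_⟩
            obtain ⟨A, hAU, hA1, hA2⟩ := exists_greedy e ρ hρ ε _ U rfl
            obtain ⟨s, hs, hs'⟩ := hL1 V e he ρ hρ A
              (fun x hx y hy => hU x (hAU hx) y (hAU hy)) (by
              intro x hx y hy hne h1
              rcases Finset.mem_insert.1 h1 with h2 | h2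
              · by_contra h3
                have h4 : ρ y < ρ x := by
                  have := hρ.ne hne
                  omega
                exact hA1 x hx y hy h4 h2
              · exact hA x (hAU hx) y (hAU hy) hne h2)
            exact ⟨A, hAU, hA2, s, hs, hs'⟩
        obtain ⟨L1, hL1⟩ := shell
        obtain ⟨L2, hL2⟩ := ihm (∑ ε' ∈ F, (Function.update n ε (n ε - 1)) ε') (by
          rw [← hn, ← Finset.add_sum_erase _ _ hε, ← Finset.add_sum_erase _ _ hε]
          have h1 : ∑ x ∈ F.erase ε, Function.update n ε (n ε - 1) x = ∑ x ∈ F.erase ε, n x := by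
            refine Finset.sum_congr rfl fun x hx => ?_
            rw [Function.update_of_ne (Finset.ne_of_mem_erase hx)]
          rw [h1, Function.update_self]
          omega) F Ac (Function.update n ε (n ε - 1)) hF rfl
        refine ⟨L1 + L2 + L1, fun V _ e he ρ hρ U hU hAc => ?_⟩
        classical
        obtain ⟨A, hAU, hAd, sA, hsA, hsA'⟩ := hL1 V e he ρ hρ U hU hAc
        obtain ⟨B, hBU, hBd, sB, hsB, hsB'⟩ := hL1 V e he ρ hρ (U \ A)
          (fun x hx y hy => hU x hx.1 y hy.1) (fun x hx y hy => hAc x hx.1 y hy.1)
        obtain ⟨sC, hsC, hsC'⟩ := hL2 V e he ρ hρ ((U \ A) \ B) (fun x hx y hy hne =>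
          hU x hx.1.1 y hy.1.1 hne) (fun x hx y hy hne => hAc x hx.1.1 y hy.1.1 hne)
        let s : V → ℕ := fun x => if x ∈ A then sA x else if x ∈ B then L1 + L2 + sB x else
          L1 + sC x
        have s1 : ∀ x ∈ A, s x = sA x := fun x hx => if_pos hx
        have s2 : ∀ x ∈ B, s x = L1 + L2 + sB x := fun x hx => by
          change (if x ∈ A then sA x else if x ∈ B then L1 + L2 + sB x else L1 + sC x) = _
          rw [if_neg (hBU hx).2, if_pos hx]
        have s3 : ∀ x, x ∉ A → x ∉ B → s x = L1 + sC x := fun x hx hx' => by
          change (if x ∈ A then sA x else if x ∈ B then L1 + L2 + sB x else L1 + sC x) = _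
          rw [if_neg hx, if_neg hx']
        refine ⟨s, fun x => ?_, ?_⟩
        · have a1 := hsA x
          have a2 := hsB x
          have a3 := hsC x
          by_cases h1 : x ∈ A
          · rw [s1 x h1]
            omega
          · by_cases h2 : x ∈ B
            · rw [s2 x h2]
              omega
            · rw [s3 x h1 h2]
              omega
        · intro x hx z hz hne hs d
          have a1 := hsA x
          have a2 := hsB x
          have a3 := hsC x
          have b1 := hsA z
          have b2 := hsB z
          have b3 := hsC z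
          by_cases h1 : x ∈ A
          · have h2 : z ∈ A := by
              by_contra h2
              rw [s1 x h1] at hs
              by_cases h3 : z ∈ B
              · rw [s2 z h3] at hs
                omega
              · rw [s3 z h2 h3] at hs
                omega
            rw [s1 x h1, s1 z h2] at hs
            refine (hsA' x h1 z h2 hne hs d).trans (Set.ncard_le_ncard ?_ (Set.toFinite _))
            rintro w ⟨hw, hw', hw''⟩
            refine ⟨hAU hw, hw', ?_⟩
            rw [s1 x h1, s1 w hw]
            exact hw''
          · by_cases h2 : x ∈ B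
            · have h3 : z ∈ B := by
                by_contra h3
                rw [s2 x h2] at hs
                by_cases h4 : z ∈ A
                · rw [s1 z h4] at hs
                  omega
                · rw [s3 z h4 h3] at hs
                  omega
              rw [s2 x h2, s2 z h3] at hs
              refine (hsB' x h2 z h3 hne (by omega) d).trans
                (Set.ncard_le_ncard ?_ (Set.toFinite _))
              rintro w ⟨hw, hw', hw''⟩
              refine ⟨(hBU hw).1, hw', ?_⟩
              rw [s2 x h2, s2 w hw]
              cases d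
              · simp only [Bool.false_eq_true, if_false] at hw'' ⊢
                omega
              · simp only [if_true] at hw'' ⊢
                omega
            · have h3 : z ∉ A := by
                intro h3
                rw [s3 x h1 h2, s1 z h3] at hs
                omega
              have h4 : z ∉ B := by
                intro h4
                rw [s3 x h1 h2, s2 z h4] at hs
                omega
              rw [s3 x h1 h2, s3 z h3 h4] at hs
              have h5 := hsC' x ⟨⟨hx, h1⟩, h2⟩ z ⟨⟨hz, h3⟩, h4⟩ hne (by omega) d
              have h6 : {w | w ∈ (U \ A) \ B ∧ e x w = e x z ∧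
                  (if d then sC w < sC x else sC x < sC w)} ⊆
                {w | w ∈ U ∧ e x w = e x z ∧ (if d then s w < s x else s x < s w)} := by
                rintro w ⟨hw, hw', hw''⟩
                refine ⟨hw.1.1, hw', ?_⟩
                rw [s3 x h1 h2, s3 w hw.1.2 hw.2]
                cases d
                · simp only [Bool.false_eq_true, if_false] at hw'' ⊢
                  omega
                · simp only [if_true] at hw'' ⊢
                  omega
              by_cases h7 : e x z = ε
              · rw [h7, Function.update_self] at h5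
                -- one more witness from the shell
                obtain ⟨a, ha1, ha2, ha3, ha4⟩ : ∃ a, a ∈ U ∧ a ∉ (U \ A) \ B ∧ e x a = ε ∧
                    (if d then s a < s x else s x < s a) := by
                  cases d
                  · obtain ⟨a, ha, hea⟩ := hBd x ⟨hx, h1⟩ h2
                    refine ⟨a, (hBU ha).1, fun h => h.2 ha, hea, ?_⟩
                    simp only [Bool.false_eq_true, if_false]
                    rw [s3 x h1 h2, s2 a ha]
                    omega
                  · obtain ⟨a, ha, hea⟩ := hAd x hx h1
                    refine ⟨a, hAU ha, fun h => h.1.2 ha, hea, ?_⟩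
                    simp only [if_true]
                    have := hsA a
                    rw [s3 x h1 h2, s1 a ha]
                    omega
                rw [h7] at h6 ⊢
                have h8 : insert a {w | w ∈ (U \ A) \ B ∧ e x w = ε ∧
                    (if d then sC w < sC x else sC x < sC w)} ⊆
                  {w | w ∈ U ∧ e x w = ε ∧ (if d then s w < s x else s x < s w)} :=
                  Set.insert_subset ⟨ha1, ha3, ha4⟩ h6
                have h9 := Set.ncard_le_ncard h8 (Set.toFinite _)
                rw [Set.ncard_insert_of_notMem (fun h => ha2 h.1) (Set.toFinite _)] at h9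
                change n ε ≤ _
                change n ε - 1 ≤ _ at h5
                unfold nb at h5 ⊢
                omega
              · rw [Function.update_of_ne h7] at h5
                exact h5.trans (Set.ncard_le_ncard h6 (Set.toFinite _))

theorem split (E : Type) [Finite E] (cv : E → E) (hcv : ∀ ε, cv (cv ε) = ε) (N : ℕ) :
    ∃ L : ℕ, ∀ (V : Type) [Finite V] (e : V → V → E),
    (∀ x y, x ≠ y → e y x = cv (e x y)) → ∀ U : Set V,
      ∃ s : V → ℕ, (∀ x, s x < L) ∧ ∀ x ∈ U, ∀ z ∈ U, x ≠ z → s x = s z →
        ∀ d, N ≤ nb e U s x (e x z) d := by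
  classical
  have := Fintype.ofFinite E
  obtain ⟨L, hL⟩ := split_aux cv hcv (2 * (Finset.univ : Finset E).card) _ Finset.univ ∅
    (fun _ => N) (by simp) rfl
  refine ⟨L, fun V _ e he U => ?_⟩
  obtain ⟨n, ⟨i⟩⟩ := Finite.exists_equiv_fin V
  exact hL V e he (fun v => ((i v : ℕ) : ℤ)) (fun a b h => i.injective (Fin.ext (by
    have h' : ((i a : ℕ) : ℤ) = ((i b : ℕ) : ℤ) := h
    omega))) U (fun _ _ _ _ _ => Finset.mem_univ _)
    (fun _ _ _ _ _ h => absurd h (Finset.notMem_empty _))

end Pool.MP_33c730_lc.Tv
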