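import Pool.Agent.Lib.MP_33c730_lc.Tv.SynDefs
import Pool.Agent.Lib.MP_33c730_lc.Tv.Mso

set_option autoImplicit false

namespace Pool.MP_33c730_lc.Tv

/-! ### Syn: from the syntactic fragment to two-variable formulas -/

/-- the truth value depends on the free variables only -/
theorem sat_congr {C V : Type} (G : CG C V) (lt : V → V → Prop) {α β : Type} (f : OMSO C α β) :
    ∀ (v v' : α → V) (S : β → Set V), (∀ i ∈ f.Fv, v i = v' i) →
      (f.Sat G lt v S ↔ f.Sat G lt v' S) := by
  induction f with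
  | eq i j =>
    intro v v' S h
    have h1 : v i = v' i := h i (Or.inl rfl)
    have h2 : v j = v' j := h j (Or.inr rfl)
    change v i = v j ↔ v' i = v' j
    rw [h1, h2]
  | adj i j =>
    intro v v' S h
    have h1 : v i = v' i := h i (Or.inl rfl)
    have h2 : v j = v' j := h j (Or.inr rfl)
    change G.gr.Adj (v i) (v j) ↔ G.gr.Adj (v' i) (v' j)
    rw [h1, h2]
  | col c i =>
    intro v v' S h
    have h1 : v i = v' i := h i rfl
    change G.col c (v i) ↔ G.col c (v' i)
    rw [h1]
  | lt i j =>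
    intro v v' S h
    have h1 : v i = v' i := h i (Or.inl rfl)
    have h2 : v j = v' j := h j (Or.inr rfl)
    change lt (v i) (v j) ↔ lt (v' i) (v' j)
    rw [h1, h2]
  | mem i X =>
    intro v v' S h
    have h1 : v i = v' i := h i rfl
    change v i ∈ S X ↔ v' i ∈ S X
    rw [h1]
  | neg f ih => exact fun v v' S h => not_congr (ih v v' S h)
  | and f g ih1 ih2 =>
    exact fun v v' S h => and_congr (ih1 v v' S fun i hi => h i (Or.inl hi))
      (ih2 v v' S fun i hi => h i (Or.inr hi))
  | ex n f ih =>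
    intro v v' S h
    refine exists_congr fun s => and_congr Iff.rfl (forall_congr' fun j => ih _ _ S ?_)
    rintro (_ | i) hi
    · rfl
    · exact h i hi
  | exS f ih =>
    intro v v' S h
    exact exists_congr fun X => ih v v' _ h

/-- formulas without the order are MSO formulas. -/
theorem nolt_def {C : Type} {α β : Type} (f : OMSO C α β) : f.NoLt →
    ∃ θ : MSO C α β, ∀ (V : Type) [Finite V] (G : CG C V) (lt : V → V → Prop) (v : α → V)
      (S : β → Set V), θ.Sat G v S ↔ f.Sat G lt v S := by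
  induction f with
  | eq i j => exact fun _ => ⟨.eq i j, fun _ _ _ _ _ _ => Iff.rfl⟩
  | adj i j => exact fun _ => ⟨.adj i j, fun _ _ _ _ _ _ => Iff.rfl⟩
  | col c i => exact fun _ => ⟨.col c i, fun _ _ _ _ _ _ => Iff.rfl⟩
  | lt i j => exact fun h => h.elim
  | mem i X => exact fun _ => ⟨.mem i X, fun _ _ _ _ _ _ => Iff.rfl⟩
  | neg f ih =>
    intro h
    obtain ⟨θ, hθ⟩ := ih h
    exact ⟨.neg θ, fun V _ G lt v S => not_congr (hθ V G lt v S)⟩
  | and f g ih1 ih2 =>
    intro h
    obtain ⟨θ, hθ⟩ := ih1 h.1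
    obtain ⟨θ', hθ'⟩ := ih2 h.2
    exact ⟨.and θ θ', fun V _ G lt v S => and_congr (hθ V G lt v S) (hθ' V G lt v S)⟩
  | @ex α β n f ih =>
    intro h
    obtain ⟨θ, hθ⟩ := ih h
    have h1 : DT C (Option α) β fun G v S => θ.Sat G v S := ⟨θ, fun _ _ _ _ _ _ => Iff.rfl⟩
    obtain ⟨χ, hχ⟩ := dt_count n h1
    refine ⟨χ, fun V _ G lt v S => (hχ V G v S trivial).trans
      ((inj_iff (fun w => θ.Sat G (ext w v) S) n).symm.trans ?_)⟩
    exact exists_congr fun s => and_congr Iff.rfl (forall_congr' fun j => hθ V G lt _ S)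
  | exS f ih =>
    intro h
    obtain ⟨θ, hθ⟩ := ih h
    exact ⟨.exS θ, fun V _ G lt v S => exists_congr fun X => hθ V G lt v _⟩

/-- the truth value in the empty graph -/
theorem sat_empty {C V V' : Type} [IsEmpty V] [IsEmpty V'] (G : CG C V) (lt : V → V → Prop)
    (G' : CG C V') (lt' : V' → V' → Prop) {α β : Type} (f : OMSO C α β) :
    ∀ (v : α → V) (S : β → Set V) (v' : α → V') (S' : β → Set V'),
      (f.Sat G lt v S ↔ f.Sat G' lt' v' S') := by
  induction f with
  | eq i j => exact fun v _ _ _ => (IsEmpty.false (v i)).elim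
  | adj i j => exact fun v _ _ _ => (IsEmpty.false (v i)).elim
  | col c i => exact fun v _ _ _ => (IsEmpty.false (v i)).elim
  | lt i j => exact fun v _ _ _ => (IsEmpty.false (v i)).elim
  | mem i X => exact fun v _ _ _ => (IsEmpty.false (v i)).elim
  | neg f ih => exact fun v S v' S' => not_congr (ih v S v' S')
  | and f g ih1 ih2 => exact fun v S v' S' => and_congr (ih1 v S v' S') (ih2 v S v' S')
  | ex n f ih =>
    intro v S v' S'
    constructor
    · rintro ⟨s, _, _⟩
      exact ⟨fun j => (IsEmpty.false (s j)).elim, fun j => (IsEmpty.false (s j)).elim,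
        fun j => (IsEmpty.false (s j)).elim⟩
    · rintro ⟨s, _, _⟩
      exact ⟨fun j => (IsEmpty.false (s j)).elim, fun j => (IsEmpty.false (s j)).elim,
        fun j => (IsEmpty.false (s j)).elim⟩
  | exS f ih =>
    intro v S v' S'
    constructor
    · rintro ⟨X, hX⟩
      exact ⟨∅, (ih _ _ _ _).1 hX⟩
    · rintro ⟨X, hX⟩
      exact ⟨∅, (ih _ _ _ _).2 hX⟩

/-- definable by a two-variable formula over MSO definable relations -/
def DC (C : Type) (R : ∀ {V : Type}, CG C V → (V → V → Prop) → (Bool → V) → Prop) : Prop :=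
  ∃ (ι κ : Type) (_ : Finite ι) (_ : Finite κ) (β : ι → MSO C (Fin 1) Empty)
    (γ : κ → MSO C (Fin 2) Empty) (g : C2 ι κ), ∀ (V : Type) [Finite V] (G : CG C V)
    (lt : V → V → Prop) (v : Bool → V), IsStrictTotalOrder V lt → (g.SatG β γ G lt v ↔ R G lt v)

/-- renaming the relations -/
def C2.map {ι κ ι' κ' : Type} (a : ι → ι') (b : κ → κ') : C2 ι κ → C2 ι' κ'
  | .lt c => .lt c
  | .un i c => .un (a i) c
  | .bin k c => .bin (b k) c
  | .neg f => .neg (f.map a b)
  | .and f g => .and (f.map a b) (g.map a b)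
  | .ex n c f => .ex n c (f.map a b)

theorem C2.sat_map {ι κ ι' κ' V : Type} (a : ι → ι') (b : κ → κ') (U : ι' → V → Prop)
    (R : κ' → V → V → Prop) (lt : V → V → Prop) (f : C2 ι κ) : ∀ v : Bool → V,
    ((f.map a b).Sat U R lt v ↔ f.Sat (fun i => U (a i)) (fun k => R (b k)) lt v) := by
  induction f with
  | lt c => exact fun _ => Iff.rfl
  | un i c => exact fun _ => Iff.rfl
  | bin k c => exact fun _ => Iff.rfl
  | neg f ih => exact fun v => not_congr (ih v)
  | and f g ih1 ih2 => exact fun v => and_congr (ih1 v) (ih2 v)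
  | ex n c f ih =>
    exact fun v => exists_congr fun s => and_congr Iff.rfl (forall_congr' fun j => ih _)

section
variable {C : Type}

theorem DC.congr {R R' : ∀ {V : Type}, CG C V → (V → V → Prop) → (Bool → V) → Prop}
    (h : DC C R) (h' : ∀ {V : Type} [Finite V] (G : CG C V) (lt : V → V → Prop) (v : Bool → V),
      IsStrictTotalOrder V lt → (R G lt v ↔ R' G lt v)) : DC C R' := by
  obtain ⟨ι, κ, h1, h2, β, γ, g, hg⟩ := h
  exact ⟨ι, κ, h1, h2, β, γ, g, fun V _ G lt v hlt => (hg V G lt v hlt).trans (h' G lt v hlt)⟩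

theorem DC.not {R : ∀ {V : Type}, CG C V → (V → V → Prop) → (Bool → V) → Prop}
    (h : DC C R) : DC C fun G lt v => ¬ R G lt v := by
  obtain ⟨ι, κ, h1, h2, β, γ, g, hg⟩ := h
  exact ⟨ι, κ, h1, h2, β, γ, .neg g, fun V _ G lt v hlt => not_congr (hg V G lt v hlt)⟩

theorem DC.and {R R' : ∀ {V : Type}, CG C V → (V → V → Prop) → (Bool → V) → Prop}
    (h : DC C R) (h' : DC C R') : DC C fun G lt v => R G lt v ∧ R' G lt v := by
  obtain ⟨ι, κ, h1, h2, β, γ, g, hg⟩ := h
  obtain ⟨ι', κ', h1', h2', β', γ', g', hg'⟩ := h'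
  refine ⟨ι ⊕ ι', κ ⊕ κ', inferInstance, inferInstance, Sum.elim β β', Sum.elim γ γ',
    .and (g.map Sum.inl Sum.inl) (g'.map Sum.inr Sum.inr), fun V _ G lt v hlt => ?_⟩
  refine and_congr ?_ ?_
  · exact (C2.sat_map _ _ _ _ lt g v).trans (hg V G lt v hlt)
  · exact (C2.sat_map _ _ _ _ lt g' v).trans (hg' V G lt v hlt)

theorem DC.ex {R : ∀ {V : Type}, CG C V → (V → V → Prop) → (Bool → V) → Prop} (n : ℕ) (b : Bool)
    (h : DC C R) : DC C fun {V} G lt v => ∃ s : Fin n → V, Function.Injective s ∧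
      ∀ j, R G lt (Function.update v b (s j)) := by
  obtain ⟨ι, κ, h1, h2, β, γ, g, hg⟩ := h
  exact ⟨ι, κ, h1, h2, β, γ, .ex n b g, fun V _ G lt v hlt => exists_congr fun s =>
    and_congr Iff.rfl (forall_congr' fun j => hg V G lt _ hlt)⟩

theorem DC.lt (b : Bool) : DC C fun _ lt v => lt (v b) (v (!b)) :=
  ⟨Empty, Empty, inferInstance, inferInstance, Empty.elim, Empty.elim, .lt b,
    fun _ _ _ _ _ _ => Iff.rfl⟩

theorem DC.mso (θ : MSO C Bool Empty) : DC C fun G _ v => θ.Sat G v Empty.elim := by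
  obtain ⟨χ, hχ⟩ : Def C (Fin 2) Empty fun G v S => θ.Sat G (fun b => v (bif b then 0 else 1))
      (fun X : Empty => S X) := Def.rename (R := fun G v S => θ.Sat G v S)
    ⟨θ, fun _ _ _ _ => Iff.rfl⟩ (fun b : Bool => (bif b then 0 else 1 : Fin 2)) (fun X => X)
  refine ⟨Empty, Unit, inferInstance, inferInstance, Empty.elim, fun _ => χ, .bin () true,
    fun V _ G lt v _ => ?_⟩
  change χ.Sat G ![v true, v (!true)] Empty.elim ↔ θ.Sat G v Empty.elim
  have h1 : (fun b : Bool => (![v true, v (!true)] : Fin 2 → V) (bif b then 0 else 1)) = v := by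
    funext b
    cases b <;> rfl
  have h2 : (fun X : Empty => (Empty.elim : Empty → Set V) X) = Empty.elim := rfl
  have h3 : χ.Sat G ![v true, v (!true)] Empty.elim ↔
      θ.Sat G (fun b : Bool => (![v true, v (!true)] : Fin 2 → V) (bif b then 0 else 1))
        (fun X : Empty => (Empty.elim : Empty → Set V) X) := hχ V G _ _
  rw [h1, h2] at h3
  exact h3

theorem DC.const (p : Prop) : DC C fun _ _ _ => p := by
  by_cases hp : p
  · refine DC.congr (DC.mso (.eq true true)) ?_
    intro V _ G lt v _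
    exact iff_of_true rfl hp
  · refine DC.congr (DC.not (DC.mso (.eq true true))) ?_
    intro V _ G lt v _
    exact iff_of_false (fun h => h rfl) hp

/-- order-free formulas -/
theorem dc_nolt {α β : Type} (f : OMSO C α β) (hf : f.NoLt) (hβ : IsEmpty β) (ρ : α → Bool) :
    DC C fun G lt v => f.Sat G lt (fun i => v (ρ i)) (fun X => (hβ.false X).elim) := by
  obtain ⟨θ, hθ⟩ := nolt_def f hf
  obtain ⟨χ, hχ⟩ : Def C Bool Empty fun G v S => θ.Sat G (fun i => v (ρ i))
      (fun X => S ((hβ.false X).elim)) := Def.rename (R := fun G v S => θ.Sat G v S)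
    ⟨θ, fun _ _ _ _ => Iff.rfl⟩ ρ (fun X => (hβ.false X).elim)
  refine DC.congr (DC.mso χ) ?_
  intro V _ G lt v _
  have h1 : (fun X : β => (Empty.elim : Empty → Set V) ((hβ.false X).elim)) =
      fun X : β => (hβ.false X).elim := by
    funext X
    exact (hβ.false X).elim
  have h2 : χ.Sat G v Empty.elim ↔ θ.Sat G (fun i => v (ρ i))
      (fun X : β => (Empty.elim : Empty → Set V) ((hβ.false X).elim)) := hχ V G v _
  rw [h1] at h2
  exact h2.trans (hθ V G lt _ _)

/-- the main induction -/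
theorem dc_main {α β : Type} (f : OMSO C α β) (hβ : IsEmpty β) : f.TwoVar → ∀ ρ : α → Bool,
    DC C fun G lt v => f.Sat G lt (fun i => v (ρ i)) (fun X => (hβ.false X).elim) := by
  induction f with
  | eq i j => exact fun _ ρ => dc_nolt (.eq i j) (by unfold OMSO.NoLt; trivial) hβ ρ
  | adj i j => exact fun _ ρ => dc_nolt (.adj i j) (by unfold OMSO.NoLt; trivial) hβ ρ
  | col c i => exact fun _ ρ => dc_nolt (.col c i) (by unfold OMSO.NoLt; trivial) hβ ρ
  | lt i j =>
    intro _ ρ
    by_cases h : ρ i = ρ j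
    · refine DC.congr (DC.const False) ?_
      intro V _ G lt v hlt
      refine iff_of_false (fun h => h) ?_
      change ¬ lt (v (ρ i)) (v (ρ j))
      rw [h]
      exact hlt.irrefl _
    · have h' : ρ j = !(ρ i) := by
        cases h1 : ρ i <;> cases h2 : ρ j <;> simp_all
      refine DC.congr (DC.lt (ρ i)) ?_
      intro V _ G lt v _
      change lt (v (ρ i)) (v (!(ρ i))) ↔ lt (v (ρ i)) (v (ρ j))
      rw [h']
  | mem i X => exact (hβ.false X).elim
  | neg f ih => exact fun h ρ => DC.not (ih hβ h ρ)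
  | and f g ih1 ih2 => exact fun h ρ => DC.and (ih1 hβ h.1 ρ) (ih2 hβ h.2 ρ)
  | ex n f ih =>
    intro h ρ
    rcases h with h | ⟨h, a, b, hab⟩
    · exact dc_nolt (.ex n f) h hβ ρ
    -- the case distinction on the variable `none`
    by_cases hn : none ∈ f.Fv
    · -- the other free variable
      obtain ⟨c, hc⟩ : ∃ c : Option _, ∀ d ∈ f.Fv, d = none ∨ d = c := by
        rcases hab none hn with h1 | h1
        · exact ⟨b, fun d hd => by rw [h1]; exact hab d hd⟩
        · exact ⟨a, fun d hd => by rw [h1]; exact (hab d hd).symm⟩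
      let q : Bool := c.elim true ρ
      refine DC.congr (DC.ex n (!q) (ih hβ h (fun o => o.elim (!q) (fun _ => q)))) ?_
      intro V _ G lt v _
      refine exists_congr fun s => and_congr Iff.rfl (forall_congr' fun j => ?_)
      refine sat_congr G lt f _ _ _ ?_
      rintro (_ | i) hi
      · change Function.update v (!q) (s j) (!q) = s j
        exact Function.update_self _ _ _
      · change Function.update v (!q) (s j) q = v (ρ i)
        have hc' : c = some i := by
          rcases hc _ hi with h1 | h1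
          · exact absurd h1 (by simp)
          · exact h1.symm
        have hq : q = ρ i := by
          change c.elim true ρ = ρ i
          rw [hc']
          rfl
        have hq' : q ≠ !q := by cases q <;> simp
        rw [Function.update_of_ne hq', hq]
    · -- the variable does not occur
      rcases Nat.eq_zero_or_pos n with h0 | h0
      · subst h0
        refine DC.congr (DC.const True) ?_
        intro V _ G lt v _
        exact iff_of_true trivial ⟨fun j => j.elim0, fun j => j.elim0, fun j => j.elim0⟩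
      · refine DC.congr (DC.and (DC.ex n true (DC.const True))
          (ih hβ h (fun o => o.elim true ρ))) ?_
        intro V _ G lt v _
        have h1 : ∀ x, f.Sat G lt (fun i => v ((fun o => o.elim true ρ : Option _ → Bool) i))
            (fun X => (hβ.false X).elim) ↔ f.Sat G lt (ext x (fun i => v (ρ i)))
              (fun X => (hβ.false X).elim) := by
          intro x
          refine sat_congr G lt f _ _ _ ?_
          rintro (_ | i) hi
          · exact absurd hi hn
          · rfl
        constructor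
        · rintro ⟨⟨s, hs, _⟩, h2⟩
          exact ⟨s, hs, fun j => (h1 (s j)).1 h2⟩
        · rintro ⟨s, hs, h2⟩
          exact ⟨⟨s, hs, fun _ => trivial⟩, (h1 _).2 (h2 ⟨0, h0⟩)⟩
  | exS f ih => exact fun h ρ => dc_nolt (.exS f) h hβ ρ

theorem sat_toOMSO {V : Type} (G : CG C V) (lt : V → V → Prop) {α : Type} (f : FO C α) :
    ∀ (v : α → V) (S : Empty → Set V), (f.toOMSO.Sat G lt v S ↔ f.Sat G lt v) := by
  induction f with
  | eq i j => exact fun _ _ => Iff.rfl
  | adj i j => exact fun _ _ => Iff.rfl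
  | lt i j => exact fun _ _ => Iff.rfl
  | col c i => exact fun _ _ => Iff.rfl
  | neg f ih => exact fun v S => not_congr (ih v S)
  | and f g ih1 ih2 => exact fun v S => and_congr (ih1 v S) (ih2 v S)
  | ex f ih =>
    intro v S
    constructor
    · rintro ⟨s, _, h⟩
      exact ⟨s 0, (ih _ S).1 (h 0)⟩
    · rintro ⟨x, h⟩
      exact ⟨fun _ => x, fun a b _ => Subsingleton.elim a b, fun _ => (ih _ S).2 h⟩

/-- **Main theorem.** -/
theorem main_tv (φ : OMSO C Empty Empty) (h2 : φ.TwoVar) (hφ : φ.Invariant) :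
    ∃ ψ : MSO C Empty Empty, ∀ (V : Type) [Finite V] (G : CG C V) (lt : V → V → Prop),
      IsStrictTotalOrder V lt →
        (ψ.Sat G Empty.elim Empty.elim ↔ φ.Sat G lt Empty.elim Empty.elim) := by
  obtain ⟨ι, κ, h3, h4, β, γ, g, hg⟩ := dc_main φ inferInstance h2 Empty.elim
  have e1 : ∀ {V : Type} (v : Bool → V), (fun i : Empty => v (Empty.elim i)) = Empty.elim := by
    intro V v
    funext i
    exact i.elim
  have e2 : ∀ {V : Type}, (fun X : Empty => ((inferInstance : IsEmpty Empty).false X).elim) =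
      (Empty.elim : Empty → Set V) := by
    intro V
    funext i
    exact i.elim
  have hg' : ∀ (V : Type) [Finite V] (G : CG C V) (lt : V → V → Prop) (v : Bool → V),
      IsStrictTotalOrder V lt → (g.SatG β γ G lt v ↔ φ.Sat G lt Empty.elim Empty.elim) := by
    intro V _ G lt v hlt
    have h5 : g.SatG β γ G lt v ↔ φ.Sat G lt (fun i : Empty => v (Empty.elim i))
        (fun X : Empty => ((inferInstance : IsEmpty Empty).false X).elim) := hg V G lt v hlt
    rw [e1, e2] at h5
    exact h5
  obtain ⟨ψ, hψ⟩ := main_two C ι κ β γ g (fun V _ G r r' v v' hr hr' =>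
    (hg' V G r v hr).trans ((hφ V G r r' hr hr').trans (hg' V G r' v' hr').symm))
  -- the empty graph
  let G0 : CG C Empty := ⟨⊥, fun _ x => x.elim⟩
  let p : Prop := φ.Sat G0 (fun x _ => x.elim) Empty.elim Empty.elim
  have h6 : DT C Empty Empty fun {V} G v S => ((∃ _ : V, True) → ψ.Sat G v S) ∧
      (¬ (∃ _ : V, True) → p) := by
    refine DefP.and (DefP.imp (DefP.ex (DefP.const True)) ⟨ψ, fun _ _ _ _ _ _ => Iff.rfl⟩)
      (DefP.imp (DefP.not (DefP.ex (DefP.const True))) (DefP.const p))
  obtain ⟨χ, hχ⟩ := h6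
  refine ⟨χ, fun V _ G lt hlt => (hχ V G _ _ trivial).trans ?_⟩
  rcases isEmpty_or_nonempty V with hV | ⟨⟨x⟩⟩
  · have h7 : ¬ ∃ _ : V, True := fun ⟨x, _⟩ => hV.false x
    have h8 : p ↔ φ.Sat G lt Empty.elim Empty.elim :=
      sat_empty G0 (fun x _ => x.elim) G lt φ _ _ _ _
    exact ⟨fun h => h8.1 (h.2 h7), fun h => ⟨fun h' => absurd h' h7, fun _ => h8.2 h⟩⟩
  · have h7 : ∃ _ : V, True := ⟨x, trivial⟩
    have h8 := (hψ V G lt (fun _ => x) hlt).trans (hg' V G lt (fun _ => x) hlt)
    exact ⟨fun h => h8.1 (h.1 h7), fun h => ⟨fun _ => h8.2 h, fun h' => absurd h7 h'⟩⟩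
end

end Pool.MP_33c730_lc.Tv
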