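/-
MP_33c730_lc (helper20): MSO with the order and with counting quantifiers, and the fragment in which
the order is used with two variables only. Definitions only.
-/
import Pool.Agent.Lib.MP_33c730_lc.Defs

set_option autoImplicit false

namespace Pool.MP_33c730_lc

/-- Monadic second-order formulas with counting quantifiers over `{E, (P_c)_c, <}` with free element
variables in `α` and free set variables in `β`. The formula `ex n f` says that at least `n` elements
satisfy `f`, so that `ex 1 f` is the usual existential quantification. -/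
inductive OMSO (C : Type) : Type → Type → Type 1
  | eq {α β : Type} (i j : α) : OMSO C α β
  | adj {α β : Type} (i j : α) : OMSO C α β
  | col {α β : Type} (c : C) (i : α) : OMSO C α β
  | lt {α β : Type} (i j : α) : OMSO C α β
  | mem {α β : Type} (i : α) (X : β) : OMSO C α β
  | neg {α β : Type} (f : OMSO C α β) : OMSO C α β
  | and {α β : Type} (f g : OMSO C α β) : OMSO C α β
  | ex {α β : Type} (n : ℕ) (f : OMSO C (Option α) β) : OMSO C α β
  | exS {α β : Type} (f : OMSO C α (Option β)) : OMSO C α β

/-- Semantics in the ordered graph `(G, lt)`. -/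
def OMSO.Sat {C V : Type} (G : CG C V) (lt : V → V → Prop) :
    {α β : Type} → OMSO C α β → (α → V) → (β → Set V) → Prop
  | _, _, .eq i j, v, _ => v i = v j
  | _, _, .adj i j, v, _ => G.gr.Adj (v i) (v j)
  | _, _, .col c i, v, _ => G.col c (v i)
  | _, _, .lt i j, v, _ => lt (v i) (v j)
  | _, _, .mem i X, v, S => v i ∈ S X
  | _, _, .neg f, v, S => ¬ OMSO.Sat G lt f v S
  | _, _, .and f g, v, S => OMSO.Sat G lt f v S ∧ OMSO.Sat G lt g v S
  | _, _, .ex n f, v, S => ∃ s : Fin n → V, Function.Injective s ∧
      ∀ j, OMSO.Sat G lt f (ext (s j) v) S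
  | _, _, .exS f, v, S => ∃ X, OMSO.Sat G lt f v (ext X S)

/-- The order does not occur. -/
def OMSO.NoLt {C : Type} : {α β : Type} → OMSO C α β → Prop
  | _, _, .eq _ _ => True
  | _, _, .adj _ _ => True
  | _, _, .col _ _ => True
  | _, _, .lt _ _ => False
  | _, _, .mem _ _ => True
  | _, _, .neg f => f.NoLt
  | _, _, .and f g => f.NoLt ∧ g.NoLt
  | _, _, .ex _ f => f.NoLt
  | _, _, .exS f => f.NoLt

/-- The free element variables. -/
def OMSO.Fv {C : Type} : {α β : Type} → OMSO C α β → Set α
  | _, _, .eq i j => {i, j}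
  | _, _, .adj i j => {i, j}
  | _, _, .col _ i => {i}
  | _, _, .lt i j => {i, j}
  | _, _, .mem i _ => {i}
  | _, _, .neg f => f.Fv
  | _, _, .and f g => f.Fv ∪ g.Fv
  | _, _, .ex _ f => {i | some i ∈ f.Fv}
  | _, _, .exS f => f.Fv

/-- The order is used with two variables only: the scope of every quantifier over sets is free of
the order, and the scope of every quantifier over elements is free of the order or has at most two
free element variables. -/
def OMSO.TwoVar {C : Type} : {α β : Type} → OMSO C α β → Prop
  | _, _, .eq _ _ => True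
  | _, _, .adj _ _ => True
  | _, _, .col _ _ => True
  | _, _, .lt _ _ => True
  | _, _, .mem _ _ => True
  | _, _, .neg f => f.TwoVar
  | _, _, .and f g => f.TwoVar ∧ g.TwoVar
  | _, _, .ex _ f => f.NoLt ∨ (f.TwoVar ∧ ∃ a b, ∀ c ∈ f.Fv, c = a ∨ c = b)
  | _, _, .exS f => f.NoLt

/-- The truth value of the sentence in a finite graph does not depend on the linear order. -/
def OMSO.Invariant {C : Type} (φ : OMSO C Empty Empty) : Prop :=
  ∀ (V : Type) [Finite V] (G : CG C V) (r₁ r₂ : V → V → Prop), IsStrictTotalOrder V r₁ →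
    IsStrictTotalOrder V r₂ →
      (φ.Sat G r₁ Empty.elim Empty.elim ↔ φ.Sat G r₂ Empty.elim Empty.elim)

/-- First-order formulas as a special case. -/
def FO.toOMSO {C : Type} : {α : Type} → FO C α → OMSO C α Empty
  | _, .eq i j => .eq i j
  | _, .adj i j => .adj i j
  | _, .lt i j => .lt i j
  | _, .col c i => .col c i
  | _, .neg f => .neg f.toOMSO
  | _, .and f g => .and f.toOMSO g.toOMSO
  | _, .ex f => .ex 1 f.toOMSO

end Pool.MP_33c730_lc
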