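import Pool.Agent.Lib.MP_33c730_lc.Tv.Defs
import Pool.Agent.Lib.MP_33c730_lc.Tv.Split

set_option autoImplicit false

namespace Pool.MP_33c730_lc.Tv

/-! ### Types: counting types, intervals -/

/-- atomic types of pairs -/
abbrev ET (κ : Type) : Type := κ → Prop × Prop

/-- the atomic type of the reversed pair -/
def cvE {κ : Type} (ε : ET κ) : ET κ := fun k => ((ε k).2, (ε k).1)

/-- counting types of rank `r` -/
def CT (ι κ : Type) (N : ℕ) : ℕ → Type
  | 0 => (ι → Prop) × ET κ
  | r + 1 => CT ι κ N r × (CT ι κ N r × ET κ × Bool → Fin (N + 1))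

theorem finite_CT (ι κ : Type) [Finite ι] [Finite κ] (N r : ℕ) : Finite (CT ι κ N r) := by
  induction r with
  | zero =>
    change Finite ((ι → Prop) × ET κ)
    infer_instance
  | succ r ih =>
    change Finite (CT ι κ N r × (CT ι κ N r × ET κ × Bool → Fin (N + 1)))
    infer_instance

section
variable {ι κ V : Type}

/-- the atomic type of a pair -/
def ed (R : κ → V → V → Prop) (x y : V) : ET κ := fun k => (R k x y, R k y x)

theorem ed_symm (R : κ → V → V → Prop) (x y : V) : ed R y x = cvE (ed R x y) := rfl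

/-- `m`, capped at `N` -/
def cap (N m : ℕ) : Fin (N + 1) := ⟨min N m, by omega⟩

theorem cap_eq {N m m' : ℕ} (h : N ≤ m) (h' : N ≤ m') : cap N m = cap N m' := by
  unfold cap
  rw [Fin.mk.injEq]
  omega

/-- `x` before `y` (`d = true`) or after -/
def dir (bf : V → V → Prop) (d : Bool) (w x : V) : Prop := if d then bf w x else bf x w

/-- the counting type of rank `r` of `x` for a relation `bf` (before) -/
noncomputable def ty (N : ℕ) (U : ι → V → Prop) (R : κ → V → V → Prop) (bf : V → V → Prop) :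
    (r : ℕ) → V → CT ι κ N r
  | 0, x => ((fun i => U i x), ed R x x)
  | r + 1, x => (ty N U R bf r x, fun p =>
      cap N {w | ty N U R bf r w = p.1 ∧ ed R x w = p.2.1 ∧ dir bf p.2.2 w x}.ncard)

/-- comparison of the values of `c` -/
def cb (c : V → ℕ) (w x : V) : Prop := c w < c x

/-- pairs with the same value of `c` have enough witnesses on both sides. -/
def OKc (N : ℕ) (U : ι → V → Prop) (R : κ → V → V → Prop) (c : V → ℕ) (r : ℕ) : Prop :=
  ∀ s, s < r → ∀ x z, x ≠ z → c x = c z → ∀ d, N ≤ {w | ty N U R (cb c) s w =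
    ty N U R (cb c) s z ∧ ed R x w = ed R x z ∧ dir (cb c) d w x}.ncard

theorem ty_agree [Finite V] (N : ℕ) (U : ι → V → Prop) (R : κ → V → V → Prop) (c : V → ℕ)
    (bf : V → V → Prop) (h1 : ∀ x y, c x < c y → bf x y) (h2 : ∀ x y, bf x y → c x ≤ c y)
    (h3 : ∀ x, ¬ bf x x) {r : ℕ} (hc : OKc N U R c r) : ∀ s, s ≤ r →
    ty N U R bf s = ty N U R (cb c) s := by
  intro s
  induction s with
  | zero => intro _; rfl
  | succ s ih =>
    intro hs
    have ih' := ih (by omega)
    funext x
    refine Prod.ext (congrFun ih' x) ?_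
    funext p
    change cap N {w | ty N U R bf s w = p.1 ∧ ed R x w = p.2.1 ∧ dir bf p.2.2 w x}.ncard =
      cap N {w | ty N U R (cb c) s w = p.1 ∧ ed R x w = p.2.1 ∧ dir (cb c) p.2.2 w x}.ncard
    rw [ih']
    have hsub : {w | ty N U R (cb c) s w = p.1 ∧ ed R x w = p.2.1 ∧ dir (cb c) p.2.2 w x} ⊆
        {w | ty N U R (cb c) s w = p.1 ∧ ed R x w = p.2.1 ∧ dir bf p.2.2 w x} := by
      rintro w ⟨ha, hb, hd⟩
      refine ⟨ha, hb, ?_⟩
      unfold dir at hd ⊢
      cases hp : p.2.2
      · rw [hp] at hd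
        simp only [Bool.false_eq_true, if_false] at hd ⊢
        exact h1 _ _ hd
      · rw [hp] at hd
        simp only [if_true] at hd ⊢
        exact h1 _ _ hd
    by_cases hex : ∃ w0, w0 ∈ {w | ty N U R (cb c) s w = p.1 ∧ ed R x w = p.2.1 ∧
        dir bf p.2.2 w x} ∧ ¬ dir (cb c) p.2.2 w0 x
    · obtain ⟨w0, ⟨ha, hb, hd⟩, hn⟩ := hex
      have hne : x ≠ w0 := by
        rintro rfl
        unfold dir at hd
        cases hp : p.2.2 <;> rw [hp] at hd <;> simp at hd <;> exact h3 _ hd
      have hcc : c x = c w0 := by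
        unfold dir at hd hn
        cases hp : p.2.2
        · rw [hp] at hd hn
          simp only [Bool.false_eq_true, if_false] at hd hn
          have := h2 _ _ hd
          unfold cb at hn
          omega
        · rw [hp] at hd hn
          simp only [if_true] at hd hn
          have := h2 _ _ hd
          unfold cb at hn
          omega
      have h4 := hc s (by omega) x w0 hne hcc p.2.2
      rw [ha, hb] at h4
      exact cap_eq (h4.trans (Set.ncard_le_ncard hsub (Set.toFinite _))) h4
    · push Not at hex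
      congr 2
      exact Set.Subset.antisymm (fun w hw => ⟨hw.1, hw.2.1, hex w hw⟩) hsub

theorem lex_lt {a1 a2 b1 b2 n : ℕ} (h : a1 < b1) (h2 : a2 < n) : a1 * n + a2 < b1 * n + b2 := by
  have h3 : (a1 + 1) * n ≤ b1 * n := Nat.mul_le_mul_right n h
  rw [Nat.add_mul, Nat.one_mul] at h3
  omega

theorem lex_eq {a1 a2 b1 b2 n : ℕ} (h : a1 * n + a2 = b1 * n + b2) (h2 : a2 < n) (h3 : b2 < n) :
    a1 = b1 ∧ a2 = b2 := by
  rcases lt_trichotomy a1 b1 with h4 | h4 | h4
  · have := lex_lt (b2 := b2) h4 h2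
    omega
  · subst h4
    exact ⟨rfl, by omega⟩
  · have := lex_lt (b2 := a2) h4 h3
    omega

theorem exists_c (ι κ : Type) [Finite ι] [Finite κ] (N r : ℕ) : ∃ L : ℕ, ∀ (V : Type) [Finite V]
    (U : ι → V → Prop) (R : κ → V → V → Prop), ∃ c : V → ℕ, (∀ x, c x < L) ∧
      OKc N U R c r := by
  induction r with
  | zero => exact ⟨1, fun V _ U R => ⟨fun _ => 0, fun _ => Nat.one_pos,
      fun s hs => absurd hs (Nat.not_lt_zero _)⟩⟩
  | succ r ih =>
    obtain ⟨L, hL⟩ := ih
    have := finite_CT ι κ N r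
    obtain ⟨nT, ⟨e⟩⟩ := Finite.exists_equiv_fin (CT ι κ N r)
    obtain ⟨L0, hL0⟩ := split (ET κ) cvE (fun _ => rfl) N
    refine ⟨L * nT * L0, fun V _ U R => ?_⟩
    obtain ⟨c, hc, hok⟩ := hL V U R
    have hex := fun (i : ℕ) (t : CT ι κ N r) => hL0 V (ed R) (fun x y _ => ed_symm R x y)
      {x | c x = i ∧ ty N U R (cb c) r x = t}
    choose s hs hs' using hex
    let g : V → CT ι κ N r := ty N U R (cb c) r
    let c' : V → ℕ := fun x => (c x * nT + (e (g x) : ℕ)) * L0 + s (c x) (g x) x
    have hlt : ∀ x y, c x < c y → c' x < c' y := fun x y h =>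
      lex_lt (lex_lt h (e (g x)).2) (hs _ _ _)
    have heq : ∀ x y, c' x = c' y → c x = c y ∧ g x = g y ∧
        s (c x) (g x) x = s (c x) (g x) y := by
      intro x y h
      obtain ⟨h1, h2⟩ := lex_eq h (hs _ _ _) (hs _ _ _)
      obtain ⟨h3, h4⟩ := lex_eq h1 (e (g x)).2 (e (g y)).2
      have h5 : g x = g y := e.injective (Fin.ext h4)
      refine ⟨h3, h5, ?_⟩
      rw [h2, h3, h5]
    have hle : ∀ x y, c' x < c' y → c x ≤ c y := by
      intro x y h
      by_contra hc'
      have := hlt y x (by omega)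
      omega
    have hag : ∀ s, s ≤ r → ty N U R (cb c') s = ty N U R (cb c) s :=
      ty_agree N U R c (cb c') hlt hle (fun x => lt_irrefl _) hok
    refine ⟨c', fun x => ?_, ?_⟩
    · have h1 : c x * nT + (e (g x) : ℕ) < L * nT := by
        have := lex_lt (b2 := 0) (hc x) (e (g x)).2
        omega
      have h2 := lex_lt (b2 := 0) h1 (hs (c x) (g x) x)
      change (c x * nT + (e (g x) : ℕ)) * L0 + s (c x) (g x) x < _
      omega
    · intro j hj x z hne hcc d
      obtain ⟨h1, h2, h3⟩ := heq x z hcc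
      rw [hag j (by omega)]
      rcases Nat.lt_or_ge j r with hjr | hjr
      · refine (hok j hjr x z hne h1 d).trans (Set.ncard_le_ncard ?_ (Set.toFinite _))
        rintro w ⟨ha, hb, hd⟩
        refine ⟨ha, hb, ?_⟩
        unfold dir cb at hd ⊢
        cases d
        · simp only [Bool.false_eq_true, if_false] at hd ⊢
          exact hlt _ _ hd
        · simp only [if_true] at hd ⊢
          exact hlt _ _ hd
      · have hjr' : j = r := by omega
        subst hjr'
        refine (hs' (c x) (g x) x ⟨rfl, rfl⟩ z ⟨h1.symm, h2.symm⟩ hne h3 d).trans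
          (Set.ncard_le_ncard ?_ (Set.toFinite _))
        rintro w ⟨⟨ha, ha'⟩, hb, hd⟩
        have hgw : g w = g x := ha'
        refine ⟨ha'.trans h2, hb, ?_⟩
        have hcw : c' w = (c x * nT + (e (g x) : ℕ)) * L0 + s (c x) (g x) w := by
          change (c w * nT + (e (g w) : ℕ)) * L0 + s (c w) (g w) w = _
          rw [ha, hgw]
        have hcx : c' x = (c x * nT + (e (g x) : ℕ)) * L0 + s (c x) (g x) x := rfl
        unfold dir cb
        cases d
        · simp only [Bool.false_eq_true, if_false] at hd ⊢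
          rw [hcw, hcx]
          omega
        · simp only [if_true] at hd ⊢
          rw [hcw, hcx]
          omega
end

end Pool.MP_33c730_lc.Tv
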